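import Mathlib
import Pool.Agent.Helper669.Forcing

/-!
# The Menger game, strongly proper forcing, and the Menger game in a forcing extension

* `IIWinsMenger X`: player II has a winning strategy in the Menger game on the space `X`.
* `Hset θ`: the set `H(θ)`; `StronglyProperStat P R`: the forcing notion `(P, R)` (a set `P` with
  a binary relation `R`, both elements of the universe `ZFSet` of sets) is strongly proper for
  stationarily many models.
* `IIWinsExt P X`: the sentence of the forcing language of `P` which says that in the extension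
  player II has a winning strategy in the Menger game on the set `X` with the topology which has
  the ground model topology of `X` as a base.

Sentences of the forcing language are sets of conditions (the conditions which force the sentence);
the connectives are those of `Pool.Agent.Helper669.Forcing`.
-/

namespace Pool.Agent.H409_MG

open Pool.Agent.Helper669.Forcing

universe u v

/-! ### The Menger game -/

section ground

variable (X : Type u) [TopologicalSpace X]

/-- The open covers of `X`. -/
def Cover : Type u := {U : Set (Set X) // (∀ A ∈ U, IsOpen A) ∧ ⋃₀ U = Set.univ}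

/-- Player II has a winning strategy in the Menger game on `X`. In the round `n` player I plays
the open cover `u n` and the strategy `F` answers with the finite subset `F n (u 0, …, u n)` of
`u n`. -/
def IIWinsMenger : Prop :=
  ∃ F : (n : ℕ) → (Fin (n + 1) → Cover X) → Set (Set X),
    (∀ n u, (F n u).Finite ∧ F n u ⊆ (u (Fin.last n)).1) ∧
      ∀ u : ℕ → Cover X, (⋃ n, ⋃₀ F n (fun i => u i)) = Set.univ

end ground

/-! ### Strongly proper forcing -/

section proper

/-- `H(θ)`, the set of all sets whose transitive closure has fewer than `θ` elements. -/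
def Hset (θ : Cardinal.{u}) : Set ZFSet.{u} :=
  {x | ∃ y : ZFSet.{u}, y.IsTransitive ∧ x ⊆ y ∧ y.card < θ}

/-- The only symbol of the language of set theory, a binary relation symbol. -/
inductive SetRel : ℕ → Type
  | mem : SetRel 2

/-- The language of set theory. -/
def LSet : FirstOrder.Language.{0, 0} := ⟨fun _ => Empty, SetRel⟩

/-- `(H(θ), ∈)` as a structure for the language of set theory. -/
instance (θ : Cardinal.{u}) : LSet.Structure (Hset θ) where
  funMap f := f.elim
  RelMap r := match r with
    | SetRel.mem => fun x => (x 0 : ZFSet.{u}) ∈ (x 1 : ZFSet.{u})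

/-- `C` is a closed unbounded subset of `[A]^ω`. -/
def IsClubω {A : Type v} (C : Set (Set A)) : Prop :=
  (∀ B ∈ C, B.Countable ∧ B.Infinite) ∧
    (∀ B : Set A, B.Countable → B.Infinite → ∃ B' ∈ C, B ⊆ B') ∧
      ∀ B : ℕ → Set A, (∀ n, B n ∈ C) → Monotone B → (⋃ n, B n) ∈ C

/-- `S` is a stationary subset of `[A]^ω`. -/
def IsStatω {A : Type v} (S : Set (Set A)) : Prop :=
  ∀ C : Set (Set A), IsClubω C → ∃ B ∈ S, B ∈ C

/-- `(p, q)` belongs to the relation `R`: the condition `p` extends the condition `q`. -/
def Le (R p q : ZFSet.{u}) : Prop := ZFSet.pair p q ∈ R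

/-- `q` is strongly `(M, P)`-generic: every `r ≤ q` has some `r' ∈ M ∩ P` such that every
`s ≤ r'` with `s ∈ M ∩ P` is compatible with `r`. -/
def IsStronglyGeneric (M : Set ZFSet.{u}) (P R q : ZFSet.{u}) : Prop :=
  q ∈ P ∧ ∀ r ∈ P, Le R r q → ∃ r' ∈ M, r' ∈ P ∧ ∀ s ∈ M, s ∈ P → Le R s r' →
    ∃ w ∈ P, Le R w s ∧ Le R w r

/-- The forcing notion `(P, R)` is strongly proper for stationarily many models: for all large
enough regular `θ`, the set of the countable `M ≺ H(θ)` with `(P, R) ∈ M` such that every
`p ∈ M ∩ P` has a strongly `(M, P)`-generic extension is stationary in `[H(θ)]^ω`. -/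
def StronglyProperStat (P R : ZFSet.{u}) : Prop :=
  ∃ θ₀ : Cardinal.{u}, ∀ θ, θ₀ ≤ θ → θ.IsRegular →
    IsStatω {M : Set (Hset θ) | M.Countable ∧
      (∃ S : LSet.ElementarySubstructure (Hset θ), (S : Set (Hset θ)) = M) ∧
      (∃ x ∈ M, (x : ZFSet.{u}) = ZFSet.pair P R) ∧
      ∀ p ∈ P, p ∈ Subtype.val '' M →
        ∃ q, Le R q p ∧ IsStronglyGeneric (Subtype.val '' M) P R q}

/-- `(P, R)` is a preordered set. -/
def IsPreorderZ (P R : ZFSet.{u}) : Prop :=
  (∀ p ∈ P, Le R p p) ∧ ∀ p ∈ P, ∀ q ∈ P, ∀ r ∈ P, Le R p q → Le R q r → Le R p r

/-- The preordered type of the conditions of the forcing notion `(P, R)`. -/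
def Cond (P R : ZFSet.{u}) (_ : IsPreorderZ P R) : Type (u + 1) := {p : ZFSet.{u} // p ∈ P}

instance (P R : ZFSet.{u}) (h : IsPreorderZ P R) : Preorder (Cond P R h) where
  le p q := Le R p.1 q.1
  le_refl p := h.1 p.1 p.2
  le_trans p q r := h.2 p.1 p.2 q.1 q.2 r.1 r.2

end proper

/-! ### The Menger game in the extension -/

section ext

variable {P : Type u} [Preorder P] {X : Type v}

/-- The subsets of `X` named by `A` and `B` are equal. -/
def SubEq (A B : X → Set P) : Set P :=
  fall fun x => fand (fimp (meets (A x)) (meets (B x))) (fimp (meets (B x)) (meets (A x)))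

/-- The subset of `X` named by `A` is open in the topology with base `τ`, where `τ` is the set of
the open sets of the ground model. -/
def OpenExt [TopologicalSpace X] (A : X → Set P) : Set P :=
  fall fun x => fimp (meets (A x)) (fex fun U : Set X =>
    fand (fground (IsOpen U ∧ x ∈ U)) (fall fun y => fall fun _ : y ∈ U => meets (A y)))

/-- A name for a set of subsets of `X`: it assigns to each name `A` of a subset of `X` the sentence
`A ∈ 𝒰`, which only depends on the subset named by `A`. -/
structure Fam (P : Type u) [Preorder P] (X : Type v) where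
  /-- the conditions which force `A ∈ 𝒰` -/
  mem : (X → Set P) → Set P
  down : ∀ A, ∀ p ∈ mem A, ∀ q ≤ p, q ∈ mem A
  dense : ∀ A p, (∀ q ≤ p, ∃ r ≤ q, r ∈ mem A) → p ∈ mem A
  ext : ∀ A B p, p ∈ SubEq A B → p ∈ mem A → p ∈ mem B

/-- The sets of subsets of `X` named by `U` and `V` are equal. -/
def FamEq (U V : Fam P X) : Set P :=
  fall fun A => fand (fimp (U.mem A) (V.mem A)) (fimp (V.mem A) (U.mem A))

/-- `U` names a subset of the set named by `V`. -/
def FamSub (U V : Fam P X) : Set P := fall fun A => fimp (U.mem A) (V.mem A)

/-- `U` names a finite set of subsets of `X`: it is contained in `{A 0, …, A (k-1)}` for some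
`k` and `A 0, …, A (k-1)`. -/
def FamFin (U : Fam P X) : Set P :=
  fex fun k : ℕ => fex fun A : Fin k → X → Set P =>
    fall fun B => fimp (U.mem B) (fex fun i => SubEq B (A i))

/-- The point `x` belongs to the union of the set of subsets of `X` named by `U`. -/
def Covered (U : Fam P X) (x : X) : Set P := fex fun A => fand (U.mem A) (meets (A x))

/-- `U` names an open cover of `X`. -/
def CoverExt [TopologicalSpace X] (U : Fam P X) : Set P :=
  fand (fall fun A => fimp (U.mem A) (OpenExt A)) (fall fun x => Covered U x)

/-- `F` names a strategy of player II in the Menger game on `X`: it answers the open covers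
`u 0, …, u n` with a finite subset of `u n`, which only depends on the sets named by
`u 0, …, u n`. -/
def StratExt [TopologicalSpace X] (F : (n : ℕ) → (Fin (n + 1) → Fam P X) → Fam P X) : Set P :=
  fall fun n => fall fun u : Fin (n + 1) → Fam P X =>
    fimp (fall fun i => CoverExt (u i))
      (fand (fand (FamFin (F n u)) (FamSub (F n u) (u (Fin.last n))))
        (fall fun v : Fin (n + 1) → Fam P X =>
          fimp (fall fun i => FamEq (u i) (v i)) (FamEq (F n u) (F n v))))

/-- In the extension, player II has a winning strategy in the Menger game on the set `X` with the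
topology generated by the ground model topology. -/
def IIWinsExt (P : Type u) [Preorder P] (X : Type v) [TopologicalSpace X] : Set P :=
  fex fun F : (n : ℕ) → (Fin (n + 1) → Fam P X) → Fam P X =>
    fand (StratExt F)
      (fall fun u : ℕ → Fam P X => fimp (fall fun n => CoverExt (u n))
        (fall fun x => fex fun n => Covered (F n fun i => u i) x))

end ext

end Pool.Agent.H409_MG
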