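import Pool.Agent.H409_MG.Defs

/-!
# Cohen forcing destroys the winning strategies of player II on the Cantor space
-/

namespace Pool.Agent.H409_MG

open Pool.Agent.Helper669.Forcing

universe u v

section general

variable {P : Type u} [Preorder P] {X : Type v}

/-- the statement holds as soon as it holds densely -/
def DenseCl (φ : Set P) : Prop := ∀ p, (∀ q ≤ p, ∃ r ≤ q, r ∈ φ) → p ∈ φ

theorem dc_meets (N : Set P) : DenseCl (meets N) := by
  intro p h q hq
  obtain ⟨r, hr, h'⟩ := h q hq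
  obtain ⟨r', hr', s, hs, hs'⟩ := h' r le_rfl
  exact ⟨r', hr'.trans hr, s, hs, hs'⟩

theorem dc_fnot {φ : Set P} (hφ : Down φ) : DenseCl (fnot φ) := by
  intro p h q hq hq'
  obtain ⟨r, hr, h'⟩ := h q hq
  exact h' r le_rfl (hφ _ hq' _ hr)

theorem dc_fex {ι : Sort v} (φ : ι → Set P) : DenseCl (fex φ) := by
  intro p h
  rw [mem_fex]
  intro q hq
  obtain ⟨r, hr, h'⟩ := h q hq
  obtain ⟨s, hs, i, hi⟩ := mem_fex.1 h' r le_rfl
  exact ⟨s, hs.trans hr, i, hi⟩

theorem fimp_iff {φ ψ : Set P} (hφ : Down φ) (hψ : DenseCl ψ) {p : P} :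
    p ∈ fimp φ ψ ↔ ∀ q ≤ p, q ∈ φ → q ∈ ψ := by
  rw [mem_fimp]
  constructor
  · intro h q hq hq'
    apply hψ
    intro r hr
    exact h r (hr.trans hq) (hφ _ hq' _ hr)
  · intro h q hq hq'
    exact ⟨q, le_rfl, h q hq hq'⟩

theorem subEq_iff {A B : X → Set P} {p : P} :
    p ∈ SubEq A B ↔ ∀ x, ∀ q ≤ p, q ∈ meets (A x) ↔ q ∈ meets (B x) := by
  constructor
  · intro h x q hq
    have h1 := (h x).1
    have h2 := (h x).2
    rw [fimp_iff (down_meets _) (dc_meets _)] at h1 h2
    exact ⟨h1 q hq, h2 q hq⟩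
  · intro h x
    refine ⟨?_, ?_⟩
    · rw [fimp_iff (down_meets _) (dc_meets _)]
      exact fun q hq => (h x q hq).1
    · rw [fimp_iff (down_meets _) (dc_meets _)]
      exact fun q hq => (h x q hq).2

theorem down_SubEq (A B : X → Set P) : Down (SubEq A B) :=
  down_fall fun _ => down_fand (down_fimp _ _) (down_fimp _ _)

theorem subEq_refl (A : X → Set P) (p : P) : p ∈ SubEq A A :=
  subEq_iff.2 fun _ _ _ => Iff.rfl

theorem subEq_symm {A B : X → Set P} {p : P} (h : p ∈ SubEq A B) : p ∈ SubEq B A :=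
  subEq_iff.2 fun x q hq => (subEq_iff.1 h x q hq).symm

theorem subEq_trans {A B C : X → Set P} {p : P} (h : p ∈ SubEq A B) (h' : p ∈ SubEq B C) :
    p ∈ SubEq A C :=
  subEq_iff.2 fun x q hq => (subEq_iff.1 h x q hq).trans (subEq_iff.1 h' x q hq)

theorem famEq_iff {U V : Fam P X} {p : P} :
    p ∈ FamEq U V ↔ ∀ A, ∀ q ≤ p, q ∈ U.mem A ↔ q ∈ V.mem A := by
  constructor
  · intro h A q hq
    have h1 := (h A).1
    have h2 := (h A).2
    rw [fimp_iff (U.down A) (V.dense A)] at h1
    rw [fimp_iff (V.down A) (U.dense A)] at h2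
    exact ⟨h1 q hq, h2 q hq⟩
  · intro h A
    refine ⟨?_, ?_⟩
    · rw [fimp_iff (U.down A) (V.dense A)]
      exact fun q hq => (h A q hq).1
    · rw [fimp_iff (V.down A) (U.dense A)]
      exact fun q hq => (h A q hq).2

theorem famSub_iff {U V : Fam P X} {p : P} :
    p ∈ FamSub U V ↔ ∀ A, ∀ q ≤ p, q ∈ U.mem A → q ∈ V.mem A := by
  constructor
  · intro h A
    have h1 := h A
    rw [fimp_iff (U.down A) (V.dense A)] at h1
    exact h1
  · intro h A
    rw [fimp_iff (U.down A) (V.dense A)]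
    exact h A

theorem down_FamEq (U V : Fam P X) : Down (FamEq U V) :=
  down_fall fun _ => down_fand (down_fimp _ _) (down_fimp _ _)

theorem famEq_symm {U V : Fam P X} {p : P} (h : p ∈ FamEq U V) : p ∈ FamEq V U :=
  famEq_iff.2 fun A q hq => (famEq_iff.1 h A q hq).symm

theorem not_covered_congr {U V : Fam P X} {p : P} (h : p ∈ FamEq U V) {x : X}
    (hU : p ∈ fnot (Covered U x)) : p ∈ fnot (Covered V x) := by
  intro q hq hq'
  obtain ⟨r, hr, A, hA, hx⟩ := mem_fex.1 hq' q le_rfl
  have h1 : r ∈ U.mem A := (famEq_iff.1 h A r (hr.trans hq)).2 hA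
  exact hU r (hr.trans hq) (mem_fex_of_mem A (down_fand (U.down A) (down_meets _)) ⟨h1, hx⟩)

end general

/-! ### Initial segments -/

/-- the initial segment of length `n` of `x` -/
def pre (x : ℕ → Bool) (n : ℕ) : List Bool := (List.range n).map x

/-- the cylinder of `w` -/
def cyl (w : List Bool) : Set (ℕ → Bool) := {x | pre x w.length = w}

@[simp] theorem pre_length (x : ℕ → Bool) (n : ℕ) : (pre x n).length = n := by simp [pre]

theorem pre_succ (x : ℕ → Bool) (n : ℕ) : pre x (n + 1) = pre x n ++ [x n] := by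
  simp [pre, List.range_succ]

theorem mem_cyl_pre (x : ℕ → Bool) (n : ℕ) : x ∈ cyl (pre x n) := by
  show pre x (pre x n).length = pre x n
  rw [pre_length]

theorem pre_prefix {x : ℕ → Bool} {m n : ℕ} (h : m ≤ n) : pre x m <+: pre x n := by
  induction n, h using Nat.le_induction with
  | base => exact List.prefix_refl _
  | succ n _ ih => rw [pre_succ]; exact ih.trans (List.prefix_append _ _)

theorem cyl_anti {w w' : List Bool} (h : w <+: w') : cyl w' ⊆ cyl w := by
  intro x hx
  have h1 : pre x w.length <+: w' := by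
    have h2 : pre x w'.length = w' := hx
    rw [← h2]
    exact pre_prefix h.length_le
  exact (List.prefix_of_prefix_length_le h1 h (by simp)).eq_of_length (by simp)

theorem cyl_comparable {x : ℕ → Bool} {w w' : List Bool} (h : x ∈ cyl w) (h' : x ∈ cyl w') :
    w <+: w' ∨ w' <+: w := by
  have h1 : pre x w.length = w := h
  have h2 : pre x w'.length = w' := h'
  rcases le_total w.length w'.length with hl | hl
  · left; rw [← h1, ← h2]; simpa using pre_prefix hl
  · right; rw [← h1, ← h2]; simpa using pre_prefix hl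

theorem cyl_eq_cylinder (x : ℕ → Bool) (n : ℕ) :
    cyl (pre x n) = PiNat.cylinder (E := fun _ => Bool) x n := by
  ext y
  constructor
  · intro h
    have h1 : pre y n = pre x n := by simpa [cyl] using h
    rw [PiNat.mem_cylinder_iff]
    intro i hi
    have h2 := congrArg (fun l : List Bool => l[i]?) h1
    simpa [pre, hi] using h2
  · intro h
    rw [PiNat.mem_cylinder_iff] at h
    show pre y (pre x n).length = pre x n
    rw [pre_length]
    apply List.map_congr_left
    intro i hi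
    exact h i (List.mem_range.1 hi)

theorem exists_mem_cyl (w : List Bool) : ∃ x, x ∈ cyl w := by
  refine ⟨fun i => w.getD i false, ?_⟩
  apply List.ext_getElem (by simp)
  intro i h1 h2
  simp [pre, List.getElem?_eq_getElem h2]

theorem isOpen_cyl (w : List Bool) : IsOpen (cyl w) := by
  obtain ⟨x, hx⟩ := exists_mem_cyl w
  have h : pre x w.length = w := hx
  rw [← h, cyl_eq_cylinder]
  exact PiNat.isOpen_cylinder _ _ _

theorem exists_cyl_subset {U : Set (ℕ → Bool)} (hU : IsOpen U) {x : ℕ → Bool} (hx : x ∈ U) :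
    ∃ w, x ∈ cyl w ∧ cyl w ⊆ U := by
  obtain ⟨_, ⟨y, n, rfl⟩, h1, h2⟩ :=
    (PiNat.isTopologicalBasis_cylinders (fun _ : ℕ => Bool)).exists_subset_of_mem_open hx hU
  refine ⟨pre y n, ?_, ?_⟩
  · rw [cyl_eq_cylinder]; exact h1
  · rw [cyl_eq_cylinder]; exact h2

/-! ### The names -/

section names

variable {P : Type u} [Preorder P] (e : P → List Bool)

/-- the name of a ground model set -/
def chk (w : List Bool) : (ℕ → Bool) → Set P := fun x => {_p | x ∈ cyl w}

theorem meets_chk {w : List Bool} {x : ℕ → Bool} {p : P} :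
    p ∈ meets (chk (P := P) w x) ↔ x ∈ cyl w := by
  constructor
  · intro h
    obtain ⟨r, _, s, hs, _⟩ := h p le_rfl
    exact hs
  · intro h
    exact meets_of_mem h

/-- the generic real, preceded by `t`, is not in the cylinder of `w` -/
def avoid (t w : List Bool) : Set P := fnot {p | w <+: t ++ e p}

theorem mem_avoid {t w : List Bool} {p : P} :
    p ∈ avoid e t w ↔ ∀ q ≤ p, ¬ w <+: t ++ e q := Iff.rfl

theorem down_avoid (t w : List Bool) : Down (avoid e t w) := down_fnot _

/-- The cover consisting of the cylinders which do not contain the generic real preceded by `t`. -/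
def base (t : List Bool) : Fam P (ℕ → Bool) where
  mem A := {p | ∀ q ≤ p, ∃ r ≤ q, ∃ w, r ∈ SubEq A (chk w) ∧ r ∈ avoid e t w}
  down A p hp q hq := fun r hr => hp r (hr.trans hq)
  dense A p h := by
    intro q hq
    obtain ⟨r, hr, h'⟩ := h q hq
    obtain ⟨s, hs, w, hw⟩ := h' r le_rfl
    exact ⟨s, hs.trans hr, w, hw⟩
  ext A B p h h' := by
    intro q hq
    obtain ⟨r, hr, w, h1, h2⟩ := h' q hq
    exact ⟨r, hr, w, subEq_trans (subEq_symm (down_SubEq A B _ h _ (hr.trans hq))) h1, h2⟩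

/-- The cover `base t`, where `t` has the name `T`. -/
def playFam (T : List Bool → Set P) : Fam P (ℕ → Bool) where
  mem A := {p | ∀ q ≤ p, ∃ r ≤ q, ∃ t, r ∈ T t ∧ r ∈ (base e t).mem A}
  down A p hp q hq := fun r hr => hp r (hr.trans hq)
  dense A p h := by
    intro q hq
    obtain ⟨r, hr, h'⟩ := h q hq
    obtain ⟨s, hs, w, hw⟩ := h' r le_rfl
    exact ⟨s, hs.trans hr, w, hw⟩
  ext A B p h h' := by
    intro q hq
    obtain ⟨r, hr, t, h1, h2⟩ := h' q hq
    exact ⟨r, hr, t, h1, (base e t).ext A B r (down_SubEq A B _ h _ (hr.trans hq)) h2⟩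

theorem playFam_eq {T : List Bool → Set P} (hd : ∀ t, Down (T t))
    (hu : ∀ p t t', p ∈ T t → p ∈ T t' → t = t') {p : P} {t : List Bool} (hp : p ∈ T t) :
    p ∈ FamEq (playFam e T) (base e t) := by
  rw [famEq_iff]
  intro A q hq
  constructor
  · intro h
    apply (base e t).dense
    intro r hr
    obtain ⟨s, hs, t', h1, h2⟩ := h r hr
    have : t' = t := hu s t' t h1 (hd t _ hp _ (hs.trans (hr.trans hq)))
    rw [this] at h2
    exact ⟨s, hs, h2⟩
  · intro h r hr
    exact ⟨r, le_rfl, t, hd t _ hp _ (hr.trans hq), (base e t).down A _ h _ hr⟩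

variable {e} (he : ∀ p q : P, p ≤ q ↔ e q <+: e p) (hs : Function.Surjective e)

include he hs

/-- a condition extending `p` whose string is an extension of that of `p` by one more bit -/
theorem exists_snoc (p : P) (b : Bool) : ∃ q ≤ p, e q = e p ++ [b] := by
  obtain ⟨q, hq⟩ := hs (e p ++ [b])
  exact ⟨q, (he q p).2 (by rw [hq]; exact List.prefix_append _ _), hq⟩

theorem exists_ext (p : P) (l : List Bool) (h : e p <+: l) : ∃ q ≤ p, e q = l := by
  obtain ⟨q, hq⟩ := hs l
  exact ⟨q, (he q p).2 (by rw [hq]; exact h), hq⟩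

/-- the cylinders of `base t` cover the ground model points -/
theorem base_covers (t : List Bool) (x : ℕ → Bool) (p : P) :
    ∃ r ≤ p, ∃ w, x ∈ cyl w ∧ r ∈ avoid e t w := by
  obtain ⟨q, hq, hq'⟩ := exists_snoc he hs p (!(x (t ++ e p).length))
  refine ⟨q, hq, pre x ((t ++ e p).length + 1), mem_cyl_pre _ _, ?_⟩
  rw [mem_avoid]
  intro r hr hw
  have h1 : t ++ e q <+: t ++ e r := by
    rw [List.prefix_append_right_inj]
    exact (he r q).1 hr
  have hl : (t ++ e q).length = (t ++ e p).length + 1 := by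
    rw [hq']; simp [Nat.add_assoc]
  have h2 : pre x ((t ++ e p).length + 1) = t ++ e q := by
    apply List.IsPrefix.eq_of_length (List.prefix_of_prefix_length_le hw h1 (by simp [hl]))
    rw [hl, pre_length]
  rw [pre_succ, hq', ← List.append_assoc] at h2
  have h3 := (List.append_inj' h2 rfl).2
  simp at h3

theorem base_cover (t : List Bool) (p : P) : p ∈ CoverExt (base e t) := by
  constructor
  · intro A
    rw [mem_fimp]
    intro q _ hq
    obtain ⟨r, hr, w, h1, _⟩ := hq q le_rfl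
    refine ⟨r, hr, fun x => ?_⟩
    rw [mem_fimp]
    intro s hs hx
    refine ⟨s, le_rfl, ?_⟩
    rw [subEq_iff] at h1
    have hxw : x ∈ cyl w := meets_chk.1 ((h1 x s hs).1 hx)
    refine mem_fex_of_mem (cyl w) ?_ ⟨⟨isOpen_cyl w, hxw⟩, fun y hy => ?_⟩
    · exact down_fand (down_fground _) (down_fall fun _ => down_fall fun _ => down_meets _)
    · exact (h1 y s hs).2 (meets_chk.2 hy)
  · intro x
    refine mem_fex.2 ?_
    intro q _
    obtain ⟨r, hr, w, hw, ha⟩ := base_covers he hs t x q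
    exact ⟨r, hr, chk w, fun s hs => ⟨s, le_rfl, w, subEq_refl _ _, down_avoid e t w _ ha _ hs⟩,
      meets_chk.2 hw⟩

theorem playFam_cover {T : List Bool → Set P} (hd : ∀ t, Down (T t)) {p : P}
    (hT : ∀ q ≤ p, ∃ r ≤ q, ∃ t, r ∈ T t) : p ∈ CoverExt (playFam e T) := by
  constructor
  · intro A
    rw [mem_fimp]
    intro q _ hq
    obtain ⟨r, hr, t, _, h2⟩ := hq q le_rfl
    obtain ⟨r', hr', h3⟩ := mem_fimp.1 ((base_cover he hs t r).1 A) r le_rfl h2
    exact ⟨r', hr'.trans hr, h3⟩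
  · intro x
    refine mem_fex.2 ?_
    intro q hq
    obtain ⟨r, hr, t, ht⟩ := hT q hq
    obtain ⟨r', hr', A, h1, h2⟩ := mem_fex.1 ((base_cover he hs t r).2 x) r le_rfl
    refine ⟨r', hr'.trans hr, A, fun s hs => ⟨s, le_rfl, t, ?_, ?_⟩, h2⟩
    · exact hd t _ ht _ (hs.trans hr')
    · exact (base e t).down A _ h1 _ hs

/-- Main step: a finite subset of `base t` misses an open set of ground model points. -/
theorem miss {U : Fam P (ℕ → Bool)} {t : List Bool} {p : P} (hfin : p ∈ FamFin U)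
    (hsub : p ∈ FamSub U (base e t)) :
    ∃ q ≤ p, ∀ x ∈ cyl (t ++ e q), q ∈ fnot (Covered U x) := by
  obtain ⟨p1, hp1, k, hk⟩ := mem_fex.1 hfin p le_rfl
  obtain ⟨p2, hp2, A, hA⟩ := mem_fex.1 hk p1 le_rfl
  have hp2p : p2 ≤ p := hp2.trans hp1
  -- decide the members one by one
  have key : ∀ j : ℕ, j ≤ k → ∃ q ≤ p2, ∀ i : Fin k, (i : ℕ) < j →
      q ∈ fnot (U.mem (A i)) ∨ ∃ w, q ∈ SubEq (A i) (chk w) ∧ q ∈ avoid e t w := by
    intro j
    induction j with
    | zero => exact fun _ => ⟨p2, le_rfl, fun i hi => absurd hi (Nat.not_lt_zero _)⟩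
    | succ j ih =>
      intro hj
      obtain ⟨q, hq, h⟩ := ih (by omega)
      have hjk : j < k := by omega
      have hstep : ∃ q' ≤ q, q' ∈ fnot (U.mem (A ⟨j, hjk⟩)) ∨
          ∃ w, q' ∈ SubEq (A ⟨j, hjk⟩) (chk w) ∧ q' ∈ avoid e t w := by
        by_cases hn : q ∈ fnot (U.mem (A ⟨j, hjk⟩))
        · exact ⟨q, le_rfl, Or.inl hn⟩
        · simp only [fnot, Set.mem_ofPred_eq, not_forall, not_not] at hn
          obtain ⟨r, hr, hr'⟩ := hn
          have h3 : r ∈ (base e t).mem (A ⟨j, hjk⟩) :=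
            famSub_iff.1 hsub _ r (hr.trans (hq.trans hp2p)) hr'
          obtain ⟨r', hr1, w, hw⟩ := h3 r le_rfl
          exact ⟨r', hr1.trans hr, Or.inr ⟨w, hw⟩⟩
      obtain ⟨q', hq', h'⟩ := hstep
      refine ⟨q', hq'.trans hq, fun i hi => ?_⟩
      rcases Nat.lt_succ_iff_lt_or_eq.1 hi with hi' | hi'
      · rcases h i hi' with h4 | ⟨w, h4, h5⟩
        · exact Or.inl (down_fnot _ _ h4 _ hq')
        · exact Or.inr ⟨w, down_SubEq _ _ _ h4 _ hq', down_avoid e t w _ h5 _ hq'⟩
      · have : i = ⟨j, hjk⟩ := Fin.ext hi'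
        rw [this]
        exact h'
  obtain ⟨q, hq, h⟩ := key k le_rfl
  refine ⟨q, hq.trans hp2p, fun x hx r hr hcov => ?_⟩
  obtain ⟨r1, hr1, B, hB, hxB⟩ := mem_fex.1 hcov r le_rfl
  have h6 := mem_fimp.1 (hA B) r1 (hr1.trans (hr.trans hq)) hB
  obtain ⟨r2, hr2, h7⟩ := h6
  obtain ⟨r3, hr3, i, h8⟩ := mem_fex.1 h7 r2 le_rfl
  have hr3q : r3 ≤ q := hr3.trans (hr2.trans (hr1.trans hr))
  have hB3 : r3 ∈ U.mem B := U.down B _ hB _ (hr3.trans hr2)
  have hA3 : r3 ∈ U.mem (A i) := U.ext B (A i) r3 h8 hB3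
  rcases h i i.2 with h9 | ⟨w, h9, h10⟩
  · exact h9 r3 hr3q hA3
  · have hx3 : r3 ∈ meets (B x) := down_meets _ _ hxB _ (hr3.trans hr2)
    have hx4 : r3 ∈ meets (A i x) := (subEq_iff.1 h8 x r3 le_rfl).1 hx3
    have hx5 : x ∈ cyl w := meets_chk.1 ((subEq_iff.1 h9 x r3 hr3q).1 hx4)
    rcases cyl_comparable hx hx5 with h11 | h11
    · -- the cylinder of `w` is smaller
      have h12 : e q <+: w.drop t.length := by
        have h13 : t <+: w := (List.prefix_append t (e q)).trans h11
        obtain ⟨w', rfl⟩ := h13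
        rw [List.drop_left]
        rwa [List.prefix_append_right_inj] at h11
      obtain ⟨r4, hr4, h14⟩ := exists_ext he hs q _ h12
      apply h10 r4 hr4
      show w <+: t ++ e r4
      rw [h14]
      have h13 : t <+: w := (List.prefix_append t (e q)).trans h11
      obtain ⟨w', rfl⟩ := h13
      rw [List.drop_left]
    · exact h10 q le_rfl h11

end names

/-! ### The counterplay -/

section play

variable {P : Type u} [Preorder P] {e : P → List Bool}

/-- the answer of the strategy when I has played `base t` for the `t` in the list `s` -/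
def resp (e : P → List Bool)
    (F : (n : ℕ) → (Fin (n + 1) → Fam P (ℕ → Bool)) → Fam P (ℕ → Bool)) (n : ℕ)
    (s : List (List Bool)) : Fam P (ℕ → Bool) := F n fun i => base e (s.getD i [])

/-- the point `x` is not covered by the last answer -/
def Gd (e : P → List Bool)
    (F : (n : ℕ) → (Fin (n + 1) → Fam P (ℕ → Bool)) → Fam P (ℕ → Bool)) (x : ℕ → Bool)
    (s : List (List Bool)) (t : List Bool) : Set P :=
  fnot (Covered (resp e F s.length (s ++ [t])) x)

/-- `p` forces that `t` is the first string with `Gd s t` -/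
def Dec (e : P → List Bool)
    (F : (n : ℕ) → (Fin (n + 1) → Fam P (ℕ → Bool)) → Fam P (ℕ → Bool)) (x : ℕ → Bool)
    (s : List (List Bool)) (t : List Bool) : Set P :=
  {p | p ∈ Gd e F x s t ∧ ∀ t', Encodable.encode t' < Encodable.encode t →
    p ∈ fnot (Gd e F x s t')}

/-- `p` forces that `s` is an initial segment of the play -/
inductive Play (e : P → List Bool)
    (F : (n : ℕ) → (Fin (n + 1) → Fam P (ℕ → Bool)) → Fam P (ℕ → Bool)) (x : ℕ → Bool) (p : P) :
    List (List Bool) → Prop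
  | nil : Play e F x p []
  | snoc (s : List (List Bool)) (t : List Bool) : Play e F x p s → p ∈ Dec e F x s t →
      Play e F x p (s ++ [t])

variable {F : (n : ℕ) → (Fin (n + 1) → Fam P (ℕ → Bool)) → Fam P (ℕ → Bool)} {x : ℕ → Bool}

theorem down_Dec (s : List (List Bool)) (t : List Bool) : Down (Dec e F x s t) :=
  fun _ hp _ hq => ⟨down_fnot _ _ hp.1 _ hq, fun t' ht' => down_fnot _ _ (hp.2 t' ht') _ hq⟩

theorem play_down {p q : P} {s : List (List Bool)} (h : Play e F x p s) (hq : q ≤ p) :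
    Play e F x q s := by
  induction h with
  | nil => exact Play.nil
  | snoc s t _ ht ih => exact Play.snoc s t ih (down_Dec s t _ ht _ hq)

theorem dec_unique {p : P} {s : List (List Bool)} {t t' : List Bool} (h : p ∈ Dec e F x s t)
    (h' : p ∈ Dec e F x s t') : t = t' := by
  rcases lt_trichotomy (Encodable.encode t) (Encodable.encode t') with hl | hl | hl
  · exact absurd h.1 (h'.2 t hl p le_rfl)
  · exact Encodable.encode_injective hl
  · exact absurd h'.1 (h.2 t' hl p le_rfl)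

theorem play_snoc {p : P} {s : List (List Bool)} {t : List Bool}
    (h : Play e F x p (s ++ [t])) : Play e F x p s ∧ p ∈ Dec e F x s t := by
  generalize hl : s ++ [t] = l at h
  cases h with
  | nil => simp at hl
  | snoc s' t' h1 h2 =>
    obtain ⟨h3, h4⟩ := List.append_inj' hl rfl
    simp only [List.cons.injEq, and_true] at h4
    subst h3 h4
    exact ⟨h1, h2⟩

theorem play_unique {p : P} {s s' : List (List Bool)} (h : Play e F x p s)
    (h' : Play e F x p s') (hl : s.length = s'.length) : s = s' := by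
  induction h generalizing s' with
  | nil =>
    symm
    rw [← List.length_eq_zero_iff, ← hl]
    rfl
  | snoc s t hs ht ih =>
    rcases List.eq_nil_or_concat' s' with rfl | ⟨s0, t0, rfl⟩
    · simp at hl
    · obtain ⟨h1, h2⟩ := play_snoc h'
      have h3 : s = s0 := ih h1 (by simpa using hl)
      subst h3
      rw [dec_unique ht h2]

theorem play_prefix {p : P} {s s' : List (List Bool)} (h : Play e F x p (s ++ s')) :
    Play e F x p s := by
  induction s' using List.reverseRecOn with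
  | nil => simpa using h
  | append_singleton l a ih =>
    apply ih
    rw [← List.append_assoc] at h
    exact (play_snoc h).1

/-- the name of the `n`-th string of the play -/
def Tn (e : P → List Bool)
    (F : (n : ℕ) → (Fin (n + 1) → Fam P (ℕ → Bool)) → Fam P (ℕ → Bool)) (x : ℕ → Bool) (n : ℕ)
    (t : List Bool) : Set P :=
  {p | ∃ s : List (List Bool), s.length = n ∧ Play e F x p (s ++ [t])}

theorem down_Tn (n : ℕ) (t : List Bool) : Down (Tn e F x n t) := by
  rintro p ⟨s, hs, h⟩ q hq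
  exact ⟨s, hs, play_down h hq⟩

theorem tn_unique {n : ℕ} {p : P} {t t' : List Bool} (h : p ∈ Tn e F x n t)
    (h' : p ∈ Tn e F x n t') : t = t' := by
  obtain ⟨s, hs, h⟩ := h
  obtain ⟨s', hs', h'⟩ := h'
  have h1 := play_unique h h' (by simp [hs, hs'])
  have h2 := (List.append_inj' h1 rfl).2
  simpa using h2

theorem play_tn {p : P} {s : List (List Bool)} (h : Play e F x p s) {i : ℕ} (hi : i < s.length) :
    p ∈ Tn e F x i (s.getD i []) := by
  refine ⟨s.take i, by simp [hi.le], ?_⟩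
  have h1 : s.take i ++ [s.getD i []] = s.take (i + 1) := by
    rw [List.getD_eq_getElem _ _ hi]
    exact List.take_append_getElem hi
  rw [h1]
  apply play_prefix (s' := s.drop (i + 1))
  rw [List.take_append_drop]
  exact h

theorem exists_dec {p : P} {s : List (List Bool)} (h : ∃ q ≤ p, ∃ t, q ∈ Gd e F x s t) :
    ∃ q ≤ p, ∃ t, q ∈ Dec e F x s t := by
  classical
  have hex : ∃ m : ℕ, ∃ t, Encodable.encode t = m ∧ ∃ q ≤ p, q ∈ Gd e F x s t := by
    obtain ⟨q, hq, t, ht⟩ := h
    exact ⟨_, t, rfl, q, hq, ht⟩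
  obtain ⟨t, ht, q, hq, hqt⟩ := Nat.find_spec hex
  refine ⟨q, hq, t, hqt, fun t' ht' r hr hr' => ?_⟩
  rw [ht] at ht'
  exact Nat.find_min hex ht' ⟨t', rfl, r, hr.trans hq, hr'⟩

variable (he : ∀ p q : P, p ≤ q ↔ e q <+: e p) (hs : Function.Surjective e)

include he hs

theorem resp_props {p : P} (hF : p ∈ StratExt F) (n : ℕ) (s : List (List Bool)) :
    ∀ q ≤ p, ∃ r ≤ q, r ∈ FamFin (resp e F n s) ∧ r ∈ FamSub (resp e F n s) (base e (s.getD n []))
      ∧ ∀ v : Fin (n + 1) → Fam P (ℕ → Bool),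
        (∀ i : Fin (n + 1), r ∈ FamEq (base e (s.getD i [])) (v i)) →
        r ∈ FamEq (resp e F n s) (F n v) := by
  intro q hq
  have h1 := hF n fun i => base e (s.getD i [])
  obtain ⟨r, hr, h2, h3⟩ := mem_fimp.1 h1 q hq fun i => base_cover he hs _ q
  refine ⟨r, hr, h2.1, ?_, fun v hv => ?_⟩
  · exact h2.2
  · have h4 := h3 v
    rw [fimp_iff (down_fall fun i => down_FamEq _ _)] at h4
    · exact h4 r le_rfl hv
    · intro p' hp'
      rw [famEq_iff]
      intro A q' hq'
      constructor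
      · intro hA
        apply (F n v).dense
        intro r' hr'
        obtain ⟨r'', hr'', h5⟩ := hp' r' (hr'.trans hq')
        exact ⟨r'', hr'', (famEq_iff.1 h5 A r'' le_rfl).1
          ((F n fun i => base e (s.getD i [])).down A _ hA _ (hr''.trans hr'))⟩
      · intro hA
        apply (F n fun i => base e (s.getD i [])).dense
        intro r' hr'
        obtain ⟨r'', hr'', h5⟩ := hp' r' (hr'.trans hq')
        exact ⟨r'', hr'', (famEq_iff.1 h5 A r'' le_rfl).2
          ((F n v).down A _ hA _ (hr''.trans hr'))⟩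

/-- There is a ground model point which is never caught. -/
theorem exists_point {p : P} (hF : p ∈ StratExt F) :
    ∃ x : ℕ → Bool, ∀ s : List (List Bool), ∀ q ≤ p, ∃ r ≤ q, ∃ t, r ∈ Gd e F x s t := by
  -- the open dense sets
  let O : List Bool × List (List Bool) → Set (ℕ → Bool) := fun a =>
    {x | ∀ q ≤ p, e q = a.1 → ∃ w, x ∈ cyl w ∧ ∀ y ∈ cyl w, ∃ r ≤ q, ∃ t, r ∈ Gd e F y a.2 t}
  let O' : List Bool × List (List Bool) → Set (ℕ → Bool) := fun a =>
    {x | ∃ w, x ∈ cyl w ∧ ∀ y ∈ cyl w, ∀ q ≤ p, e q = a.1 → ∃ r ≤ q, ∃ t, r ∈ Gd e F y a.2 t}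
  have hopen : ∀ a, IsOpen (O' a) := by
    intro a
    rw [isOpen_iff_forall_mem_open]
    rintro x ⟨w, hw, h⟩
    exact ⟨cyl w, fun y hy => ⟨w, hy, h⟩, isOpen_cyl w, hw⟩
  have hdense : ∀ a, Dense (O' a) := by
    intro a
    rw [dense_iff_inter_open]
    rintro V hV ⟨x0, hx0⟩
    obtain ⟨t, _, ht2⟩ := exists_cyl_subset hV hx0
    by_cases hex : ∃ q0 ≤ p, e q0 = a.1
    · obtain ⟨q0, hq0, hq0'⟩ := hex
      obtain ⟨r0, hr0, h1, h2, _⟩ := resp_props he hs hF a.2.length (a.2 ++ [t]) q0 hq0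
      have h3 : (a.2 ++ [t]).getD a.2.length [] = t := by simp
      rw [h3] at h2
      obtain ⟨r, hr, h4⟩ := miss he hs h1 h2
      obtain ⟨y, hy⟩ := exists_mem_cyl (t ++ e r)
      refine ⟨y, ht2 (cyl_anti (List.prefix_append _ _) hy), t ++ e r, hy, ?_⟩
      intro z hz q hq hq'
      have hq0q : q0 ≤ q := (he q0 q).2 (by rw [hq', hq0'])
      exact ⟨r, hr.trans (hr0.trans hq0q), t, h4 z hz⟩
    · refine ⟨x0, hx0, t, ?_, ?_⟩
      · assumption
      · intro z _ q hq hq'
        exact absurd ⟨q, hq, hq'⟩ hex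
  have hB : Dense (⋂ a, O' a) := dense_iInter_of_isOpen hopen hdense
  obtain ⟨x, hx⟩ := hB.nonempty
  rw [Set.mem_iInter] at hx
  refine ⟨x, fun s q hq => ?_⟩
  obtain ⟨w, hw, h⟩ := hx (e q, s)
  exact h x hw q hq rfl

theorem no_strategy (p : P) : p ∈ fnot (IIWinsExt P (ℕ → Bool)) := by
  intro q _ hq
  obtain ⟨q0, hq0, F, hF, hwin⟩ := mem_fex.1 hq q le_rfl
  obtain ⟨x, hx⟩ := exists_point he hs hF
  -- the plays
  have hplay : ∀ n : ℕ, ∀ r ≤ q0, ∃ r' ≤ r, ∃ s : List (List Bool), s.length = n ∧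
      Play e F x r' s := by
    intro n
    induction n with
    | zero => exact fun r _ => ⟨r, le_rfl, [], rfl, Play.nil⟩
    | succ n ih =>
      intro r hr
      obtain ⟨r', hr', s, hs1, hs2⟩ := ih r hr
      obtain ⟨r'', hr'', t, ht⟩ := exists_dec (hx s r' (hr'.trans hr))
      exact ⟨r'', hr''.trans hr', s ++ [t], by simp [hs1], Play.snoc s t (play_down hs2 hr'') ht⟩
  have htn : ∀ n : ℕ, ∀ r ≤ q0, ∃ r' ≤ r, ∃ t, r' ∈ Tn e F x n t := by
    intro n r hr
    obtain ⟨r', hr', s, hs1, hs2⟩ := hplay (n + 1) r hr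
    exact ⟨r', hr', _, play_tn hs2 (by omega : n < s.length)⟩
  have hcov : ∀ n, q0 ∈ CoverExt (playFam e (Tn e F x n)) := fun n =>
    playFam_cover he hs (fun t => down_Tn n t) (htn n)
  obtain ⟨q1, hq1, h1⟩ := mem_fimp.1 (hwin fun n => playFam e (Tn e F x n)) q0 le_rfl hcov
  obtain ⟨q2, hq2, n, h2⟩ := mem_fex.1 (h1 x) q1 le_rfl
  have hq20 : q2 ≤ q0 := hq2.trans hq1
  obtain ⟨q3, hq3, s, hs1, hs2⟩ := hplay (n + 1) q2 hq20
  obtain ⟨q4, hq4, _, _, h5⟩ := resp_props he hs hF n s q3 (hq3.trans hq20)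
  have hs4 := play_down hs2 hq4
  have h6 : q4 ∈ FamEq (resp e F n s) (F n fun i => playFam e (Tn e F x i)) := by
    apply h5
    intro i
    apply famEq_symm
    apply playFam_eq e (fun t => down_Tn _ t) (fun p t t' => tn_unique)
    exact play_tn hs4 (i := i) (by have := i.2; omega)
  have h7 : q4 ∈ fnot (Covered (resp e F n s) x) := by
    rcases List.eq_nil_or_concat' s with rfl | ⟨s0, t0, rfl⟩
    · simp at hs1
    · have hl : s0.length = n := by simpa using hs1
      have h8 := (play_snoc hs4).2.1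
      rw [Gd, hl] at h8
      exact h8
  exact not_covered_congr h6 h7 q4 le_rfl (down_fex _ _ h2 _ (hq4.trans hq3))

end play

end Pool.Agent.H409_MG
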