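import Pool.Agent.H409_MG.Defs

/-!
# A countable forcing notion, coded in the universe of sets, is strongly proper
-/

namespace Pool.Agent.H409_MG

open FirstOrder Language

universe u v

/-! ### The natural numbers in `ZFSet` -/

/-- the von Neumann natural numbers -/
noncomputable def nat : ℕ → ZFSet.{u}
  | 0 => ∅
  | n + 1 => insert (nat n) (nat n)

theorem rank_nat (n : ℕ) : (nat n : ZFSet.{u}).rank = n := by
  induction n with
  | zero => simp [nat]
  | succ n ih =>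
    rw [nat, ZFSet.rank_insert, ih]
    simp

theorem nat_injective : Function.Injective (nat : ℕ → ZFSet.{u}) := by
  intro m n h
  have h1 := congrArg ZFSet.rank h
  rw [rank_nat, rank_nat] at h1
  exact_mod_cast h1

/-! ### `H(θ)` -/

variable {θ : Cardinal.{u}}

theorem Hset_trans {x y : ZFSet.{u}} (hx : x ∈ Hset θ) (hy : y ∈ x) : y ∈ Hset θ := by
  obtain ⟨z, hz, hxz, hc⟩ := hx
  exact ⟨z, hz, hz.subset_of_mem (hxz hy), hc⟩

theorem Hset_empty (hθ : Cardinal.aleph0 ≤ θ) : (∅ : ZFSet.{u}) ∈ Hset θ :=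
  ⟨∅, ZFSet.isTransitive_empty, subset_rfl, by
    rw [ZFSet.card_empty]; exact Cardinal.aleph0_pos.trans_le hθ⟩

theorem Hset_insert (hθ : Cardinal.aleph0 ≤ θ) {x : ZFSet.{u}} (hx : x ∈ Hset θ) :
    insert x x ∈ Hset θ := by
  obtain ⟨y, hy, hxy, hc⟩ := hx
  refine ⟨insert x y, ?_, ?_, ?_⟩
  · intro z hz w hw
    rw [ZFSet.mem_insert_iff] at hz ⊢
    rcases hz with rfl | hz
    · exact Or.inr (hxy hw)
    · exact Or.inr (hy z hz hw)
  · intro z hz
    rw [ZFSet.mem_insert_iff] at hz ⊢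
    rcases hz with rfl | hz
    · exact Or.inl rfl
    · exact Or.inr (hxy hz)
  · refine ZFSet.card_insert_le.trans_lt ?_
    exact Cardinal.add_lt_of_lt hθ hc (Cardinal.one_lt_aleph0.trans_le hθ)

theorem Hset_nat (hθ : Cardinal.aleph0 ≤ θ) (n : ℕ) : nat n ∈ Hset θ := by
  induction n with
  | zero => exact Hset_empty hθ
  | succ n ih => exact Hset_insert hθ ih

theorem exists_Hset (x : ZFSet.{u}) : ∃ θ₀ : Cardinal.{u}, ∀ θ, θ₀ ≤ θ → x ∈ Hset θ := by
  obtain ⟨o, ho⟩ := ZFSet.exists_mem_vonNeumann x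
  refine ⟨Order.succ (ZFSet.vonNeumann o).card, fun θ hθ => ⟨ZFSet.vonNeumann o,
    ZFSet.isTransitive_vonNeumann o, (ZFSet.isTransitive_vonNeumann o).subset_of_mem ho,
    (Order.lt_succ _).trans_le hθ⟩⟩

/-! ### Formulas -/

/-- the symbol `∈` -/
def memS : LSet.Relations 2 := SetRel.mem

/-- `t₁ ∈ t₂` -/
def memF {α : Type} {n : ℕ} (t₁ t₂ : LSet.Term (α ⊕ Fin n)) : LSet.BoundedFormula α n :=
  Relations.boundedFormula₂ memS t₁ t₂

theorem realize_memF {α : Type} {n : ℕ} {t₁ t₂ : LSet.Term (α ⊕ Fin n)} {v : α → Hset θ}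
    {xs : Fin n → Hset θ} : (memF t₁ t₂).Realize v xs ↔
      ((t₁.realize (Sum.elim v xs) : Hset θ) : ZFSet.{u}) ∈
        ((t₂.realize (Sum.elim v xs) : Hset θ) : ZFSet.{u}) := by
  unfold memF
  rw [BoundedFormula.realize_rel₂]
  exact Iff.rfl

variable (S : LSet.ElementarySubstructure (Hset θ))

theorem realize_memF' {α : Type} {n : ℕ} {t₁ t₂ : LSet.Term (α ⊕ Fin n)} {v : α → S}
    {xs : Fin n → S} : (memF t₁ t₂).Realize v xs ↔
      (((t₁.realize (Sum.elim v xs) : S) : Hset θ) : ZFSet.{u}) ∈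
        (((t₂.realize (Sum.elim v xs) : S) : Hset θ) : ZFSet.{u}) := by
  unfold memF
  rw [BoundedFormula.realize_rel₂]
  exact Iff.rfl

/-- `z` is empty -/
def psi0 : LSet.Formula (Fin 1) :=
  BoundedFormula.all (BoundedFormula.not (memF (Term.var (Sum.inr 0)) (Term.var (Sum.inl 0))))

/-- there is an empty set -/
def phi0 : LSet.Formula (Fin 0) :=
  BoundedFormula.ex (BoundedFormula.all (BoundedFormula.not
    (memF (Term.var (Sum.inr 1)) (Term.var (Sum.inr 0)))))

/-- `z = x ∪ {x}` -/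
def psi1 : LSet.Formula (Fin 2) :=
  BoundedFormula.all (BoundedFormula.iff (memF (Term.var (Sum.inr 0)) (Term.var (Sum.inl 0)))
    ((memF (Term.var (Sum.inr 0)) (Term.var (Sum.inl 1))) ⊔
      (Term.bdEqual (Term.var (Sum.inr 0)) (Term.var (Sum.inl 1)))))

/-- there is `z = x ∪ {x}` -/
def phi1 : LSet.Formula (Fin 1) :=
  BoundedFormula.ex (BoundedFormula.all (BoundedFormula.iff
    (memF (Term.var (Sum.inr 1)) (Term.var (Sum.inr 0)))
    ((memF (Term.var (Sum.inr 1)) (Term.var (Sum.inl 0))) ⊔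
      (Term.bdEqual (Term.var (Sum.inr 1)) (Term.var (Sum.inl 0))))))

theorem mem_empty_of_elem (hθ : Cardinal.aleph0 ≤ θ) : ∃ z ∈ S, ((z : Hset θ) : ZFSet.{u}) = ∅ := by
  have h1 : phi0.Realize (fun i : Fin 0 => ((Fin.elim0 i : S) : Hset θ)) := by
    simp only [phi0, Formula.Realize, BoundedFormula.realize_ex, BoundedFormula.realize_all,
      BoundedFormula.realize_not, realize_memF, Term.realize_var]
    refine ⟨⟨∅, Hset_empty hθ⟩, fun w => ?_⟩
    exact ZFSet.notMem_empty _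
  have h2 := (S.isElementary phi0 (fun i : Fin 0 => (Fin.elim0 i : S))).1 h1
  simp only [phi0, Formula.Realize, BoundedFormula.realize_ex] at h2
  obtain ⟨z, hz⟩ := h2
  have h3 : psi0.Realize (fun _ : Fin 1 => z) := by
    simp only [psi0, Formula.Realize, BoundedFormula.realize_all,
      BoundedFormula.realize_not, realize_memF', Term.realize_var] at hz ⊢
    exact hz
  have h4 := (S.isElementary psi0 (fun _ : Fin 1 => z)).2 h3
  simp only [psi0, Formula.Realize, BoundedFormula.realize_all,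
      BoundedFormula.realize_not, realize_memF, Term.realize_var] at h4
  refine ⟨z, z.2, ?_⟩
  rw [ZFSet.eq_empty]
  intro y hy
  exact h4 ⟨y, Hset_trans (z : Hset θ).2 hy⟩ hy

theorem mem_insert_of_elem (hθ : Cardinal.aleph0 ≤ θ) (x : S) :
    ∃ z ∈ S, ((z : Hset θ) : ZFSet.{u}) =
      insert ((x : Hset θ) : ZFSet.{u}) ((x : Hset θ) : ZFSet.{u}) := by
  have h1 : phi1.Realize (fun _ : Fin 1 => ((x : S) : Hset θ)) := by
    simp only [phi1, Formula.Realize, BoundedFormula.realize_ex, BoundedFormula.realize_all,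
      BoundedFormula.realize_iff, BoundedFormula.realize_sup, BoundedFormula.realize_bdEqual,
      realize_memF, Term.realize_var]
    refine ⟨⟨_, Hset_insert hθ (x : Hset θ).2⟩, fun w => ?_⟩
    show (w : ZFSet.{u}) ∈ insert _ _ ↔ (w : ZFSet.{u}) ∈ ((x : Hset θ) : ZFSet.{u}) ∨ w = _
    rw [ZFSet.mem_insert_iff, Subtype.ext_iff]
    tauto
  have h2 := (S.isElementary phi1 (fun _ : Fin 1 => x)).1 h1
  simp only [phi1, Formula.Realize, BoundedFormula.realize_ex] at h2
  obtain ⟨z, hz⟩ := h2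
  have h3 : psi1.Realize (![z, x] : Fin 2 → S) := by
    simp only [psi1, Formula.Realize, BoundedFormula.realize_all,
      BoundedFormula.realize_iff, BoundedFormula.realize_sup, BoundedFormula.realize_bdEqual,
      realize_memF', Term.realize_var] at hz ⊢
    exact hz
  have h4 := (S.isElementary psi1 (![z, x] : Fin 2 → S)).2 h3
  simp only [psi1, Formula.Realize, BoundedFormula.realize_all,
      BoundedFormula.realize_iff, BoundedFormula.realize_sup, BoundedFormula.realize_bdEqual,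
      realize_memF, Term.realize_var] at h4
  refine ⟨z, z.2, ?_⟩
  ext y
  rw [ZFSet.mem_insert_iff]
  have key : ∀ w : Hset θ, (w : ZFSet.{u}) ∈ ((z : Hset θ) : ZFSet.{u}) ↔
      (w : ZFSet.{u}) ∈ ((x : Hset θ) : ZFSet.{u}) ∨ w = (x : Hset θ) := fun w => h4 w
  constructor
  · intro hy
    rcases (key ⟨y, Hset_trans (z : Hset θ).2 hy⟩).1 hy with h | h
    · exact Or.inr h
    · exact Or.inl (congrArg Subtype.val h)
  · rintro (rfl | hy)
    · exact (key (x : Hset θ)).2 (Or.inr rfl)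
    · exact (key ⟨y, Hset_trans (x : Hset θ).2 hy⟩).2 (Or.inl hy)

theorem nat_mem_of_elem (hθ : Cardinal.aleph0 ≤ θ) (n : ℕ) :
    ∃ z ∈ S, ((z : Hset θ) : ZFSet.{u}) = nat n := by
  induction n with
  | zero => exact mem_empty_of_elem S hθ
  | succ n ih =>
    obtain ⟨z, hz, h⟩ := ih
    obtain ⟨z', hz', h'⟩ := mem_insert_of_elem S hθ ⟨z, hz⟩
    refine ⟨z', hz', ?_⟩
    rw [h', nat]
    show insert (z : ZFSet.{u}) (z : ZFSet.{u}) = _
    rw [h]

/-! ### Stationarity -/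

theorem stat_elem (hθ : Cardinal.aleph0 ≤ θ) {a : ZFSet.{u}} (ha : a ∈ Hset θ)
    {C : Set (Set (Hset θ))} (hC : IsClubω C) :
    ∃ S : LSet.ElementarySubstructure (Hset θ), (S : Set (Hset θ)) ∈ C ∧
      (S : Set (Hset θ)).Countable ∧ (⟨a, ha⟩ : Hset θ) ∈ S := by
  classical
  have : Nonempty (Hset θ) := ⟨⟨a, ha⟩⟩
  have hcount : Countable (Σ l, (LSet.sum LSet.skolem₁).Functions l) := by
    rw [← Cardinal.mk_le_aleph0_iff]
    refine (card_functions_sum_skolem₁_le (L := LSet)).trans ?_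
    rw [max_le_iff]
    refine ⟨le_rfl, ?_⟩
    rw [Language.card, Cardinal.mk_le_aleph0_iff]
    have h1 : Countable (Σ l, LSet.Functions l) :=
      ⟨⟨fun f => f.2.elim, fun f => f.2.elim⟩⟩
    have h2 : Countable (Σ l, LSet.Relations l) := by
      refine ⟨⟨fun f => f.1, ?_⟩⟩
      rintro ⟨n, r⟩ ⟨m, r'⟩ h
      cases r
      cases r'
      rfl
    infer_instance
  obtain ⟨hC1, hC2, hC3⟩ := hC
  -- one step
  have hstep : ∀ B : Set (Hset θ), B.Countable → B.Infinite → ∃ B' ∈ C,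
      ((Substructure.closure (LSet.sum LSet.skolem₁) B :
        (LSet.sum LSet.skolem₁).Substructure (Hset θ)) : Set (Hset θ)) ⊆ B' := by
    intro B hB hB'
    apply hC2
    · exact hB.substructure_closure (L := LSet.sum LSet.skolem₁)
    · exact hB'.mono Substructure.subset_closure
  -- the start
  have hstart : ∃ B0 ∈ C, (⟨a, ha⟩ : Hset θ) ∈ B0 := by
    have h1 : (insert (⟨a, ha⟩ : Hset θ) (Set.range fun n => (⟨nat n, Hset_nat hθ n⟩ :
        Hset θ))).Infinite := by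
      apply Set.Infinite.mono (Set.subset_insert _ _)
      apply Set.infinite_range_of_injective
      intro m n h
      exact nat_injective (congrArg Subtype.val h)
    obtain ⟨B0, hB0, hsub⟩ := hC2 _ ((Set.countable_range _).insert _) h1
    exact ⟨B0, hB0, hsub (Set.mem_insert _ _)⟩
  obtain ⟨B0, hB0, haB0⟩ := hstart
  let nxt : {B : Set (Hset θ) // B ∈ C} → {B : Set (Hset θ) // B ∈ C} := fun B =>
    ⟨(hstep B.1 (hC1 B.1 B.2).1 (hC1 B.1 B.2).2).choose,
      (hstep B.1 (hC1 B.1 B.2).1 (hC1 B.1 B.2).2).choose_spec.1⟩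
  have hnxt : ∀ B : {B : Set (Hset θ) // B ∈ C},
      ((Substructure.closure (LSet.sum LSet.skolem₁) B.1 :
        (LSet.sum LSet.skolem₁).Substructure (Hset θ)) : Set (Hset θ)) ⊆ (nxt B).1 := fun B =>
    (hstep B.1 (hC1 B.1 B.2).1 (hC1 B.1 B.2).2).choose_spec.2
  let Bs : ℕ → {B : Set (Hset θ) // B ∈ C} := fun n => Nat.rec ⟨B0, hB0⟩ (fun _ B => nxt B) n
  have hBs : ∀ n, ((Substructure.closure (LSet.sum LSet.skolem₁) (Bs n).1 :
        (LSet.sum LSet.skolem₁).Substructure (Hset θ)) : Set (Hset θ)) ⊆ (Bs (n + 1)).1 :=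
    fun n => hnxt (Bs n)
  have hmono : Monotone fun n => (Bs n).1 :=
    monotone_nat_of_le_succ fun n => (Substructure.subset_closure).trans (hBs n)
  have hU : (⋃ n, (Bs n).1) ∈ C := hC3 _ (fun n => (Bs n).2) hmono
  let T : (LSet.sum LSet.skolem₁).Substructure (Hset θ) :=
    { carrier := ⋃ n, (Bs n).1
      fun_mem := by
        intro n f x hx
        have hx' : ∀ i, ∃ k, x i ∈ (Bs k).1 := fun i => Set.mem_iUnion.1 (hx i)
        choose k hk using hx'
        obtain ⟨K, hK⟩ : ∃ K, ∀ i, k i ≤ K := ⟨Finset.univ.sup k, fun i =>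
          Finset.le_sup (Finset.mem_univ i)⟩
        refine Set.mem_iUnion.2 ⟨K + 1, hBs K ?_⟩
        exact (Substructure.closure (LSet.sum LSet.skolem₁) (Bs K).1).fun_mem f x fun i =>
          Substructure.subset_closure (hmono (hK i) (hk i)) }
  refine ⟨T.elementarySkolem₁Reduct, ?_, ?_, ?_⟩
  · exact hU
  · exact (hC1 _ hU).1
  · exact Set.mem_iUnion.2 ⟨0, haB0⟩

/-! ### The forcing notion -/

/-- the string with code `n` -/
def str (n : ℕ) : List Bool := (Encodable.decode n : Option (List Bool)).getD []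

theorem str_surj (l : List Bool) : str (Encodable.encode l) = l := by
  simp [str]

/-- the set of conditions: the set of the natural numbers -/
noncomputable def PC : ZFSet.{0} := ZFSet.range nat

/-- the order: `m` extends `n` if the string coded by `m` extends that coded by `n` -/
noncomputable def RC : ZFSet.{0} :=
  ZFSet.range fun a : {a : ℕ × ℕ // str a.2 <+: str a.1} => ZFSet.pair (nat a.1.1) (nat a.1.2)

theorem mem_PC {x : ZFSet.{0}} : x ∈ PC ↔ ∃ n, nat n = x := by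
  rw [PC, ZFSet.mem_range]

theorem le_RC {m n : ℕ} : Le RC (nat m) (nat n) ↔ str n <+: str m := by
  rw [Le, RC, ZFSet.mem_range]
  constructor
  · rintro ⟨⟨⟨m', n'⟩, h⟩, h'⟩
    have h1 := ZFSet.pair_injective h'
    rw [← nat_injective h1.1, ← nat_injective h1.2]
    exact h
  · intro h
    exact ⟨⟨(m, n), h⟩, rfl⟩

theorem preorder_RC : IsPreorderZ PC RC := by
  constructor
  · intro p hp
    obtain ⟨n, rfl⟩ := mem_PC.1 hp
    exact le_RC.2 (List.prefix_refl _)
  · intro p hp q hq r hr h1 h2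
    obtain ⟨k, rfl⟩ := mem_PC.1 hp
    obtain ⟨l, rfl⟩ := mem_PC.1 hq
    obtain ⟨m, rfl⟩ := mem_PC.1 hr
    exact le_RC.2 ((le_RC.1 h2).trans (le_RC.1 h1))

theorem stronglyProper_PC : StronglyProperStat PC RC := by
  obtain ⟨θ₀, hθ₀⟩ := exists_Hset (ZFSet.pair PC RC)
  refine ⟨θ₀, fun θ hθ hreg C hC => ?_⟩
  have hθa := hreg.aleph0_le
  obtain ⟨S, hS1, hS2, hS3⟩ := stat_elem hθa (hθ₀ θ hθ) hC
  refine ⟨S, ⟨hS2, ⟨S, rfl⟩, ⟨_, hS3, rfl⟩, ?_⟩, hS1⟩
  intro p hp _
  obtain ⟨n, rfl⟩ := mem_PC.1 hp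
  refine ⟨nat n, le_RC.2 (List.prefix_refl _), hp, ?_⟩
  intro r hr _
  obtain ⟨k, rfl⟩ := mem_PC.1 hr
  obtain ⟨z, hz, hz'⟩ := nat_mem_of_elem S hθa k
  refine ⟨nat k, ⟨z, hz, hz'⟩, hr, ?_⟩
  intro s _ hs hsk
  exact ⟨s, hs, preorder_RC.1 s hs, hsk⟩

end Pool.Agent.H409_MG
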